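import Mathlib

/-!
# MP_6b192e_al: the minimum degree of a variant of the full transformation monoid

The degree of `T_n^a` does not only depend on `n` and the rank of `a`: for `n = 1024` and rank `2`
the kernel types `(1023, 1)` and `(512, 512)` give different degrees.
-/

namespace Pool.Agent.Results.MP_6b192e_al.RankTwo

open Function Finset

/-- The full transformation monoid `T_n`: all self-maps of `Fin n`, under composition. -/
abbrev FullT (n : ℕ) : Type := Function.End (Fin n)

/-- The variant `T_n^a`: all self-maps of `Fin n`, with the sandwich product `x * a * y`. -/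
def Variant {n : ℕ} (_a : FullT n) : Type := FullT n

instance {n : ℕ} (a : FullT n) : Semigroup (Variant a) where
  mul := fun (x y : FullT n) => (x * a * y : FullT n)
  mul_assoc _ _ _ := rfl

/-- The rank of a self-map: the size of its image. -/
noncomputable def rank {n : ℕ} (a : FullT n) : ℕ := Nat.card (Set.range (fun i : Fin n => a i))

/-- The minimum transformation degree of a semigroup `S`: the least `m ≥ 1` such that there is an
injective semigroup homomorphism from `S` to `T_m`. -/
noncomputable def minDegree (S : Type) [Semigroup S] : ℕ :=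
  sInf {m : ℕ | 1 ≤ m ∧ ∃ f : S →ₙ* FullT m, Function.Injective f}



/-! ### Lower bound for the kernel type (512,512) -/

abbrev V := Fin 1024

/-- rank two map with two kernel classes of size 512 -/
def bal : V → V := fun s => if s.val < 512 then 0 else 512

theorem aux10 (m : ℕ) : 2 ^ (10 * m) = 1024 ^ m := by rw [pow_mul]; norm_num

theorem aux9 (m : ℕ) : 2 ^ (9 * m) = 512 ^ m := by rw [pow_mul]; norm_num

theorem auxsq (P m : ℕ) : (2 ^ P * 2 ^ (9 * m)) ^ 2 = 4 ^ P * (2 ^ (9 * m) * 2 ^ (9 * m)) := by
  have e2 : (4 : ℕ) ^ P = 2 ^ P * 2 ^ P := by rw [← mul_pow]; norm_num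
  rw [e2]
  ring

theorem four_mul_le_sq_add (a b : ℕ) : 4 * (a * b) ≤ (a + b) ^ 2 := by
  zify
  nlinarith [sq_nonneg ((a : ℤ) - b)]


theorem bal_eq (s : V) : bal s = 0 ∨ bal s = 512 := by
  unfold bal
  split_ifs <;> simp

namespace Low

set_option linter.unusedSectionVars false

variable {X : Type} [Fintype X] [DecidableEq X] (act : X → (V → V) → X)

/-- the image points -/
noncomputable def T : Finset X := by
  classical exact univ.filter (fun t => ∃ p x, act p x = t)

def kap (p : X) (c : V) : X := act p (fun _ => c)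

noncomputable def Tk (p : X) : Finset X := by
  classical exact (T act).filter (fun t => ∀ c, kap act t c = kap act p c)

noncomputable def tau (p : X) (w : V) : Finset X := by
  classical exact (T act).filter (fun t => ∀ v, act t v = kap act p (v w))

theorem mem_T {t : X} : t ∈ T act ↔ ∃ p x, act p x = t := by
  classical simp [T]

theorem mem_Tk {p t : X} : t ∈ Tk act p ↔ t ∈ T act ∧ ∀ c, kap act t c = kap act p c := by
  classical simp [Tk]

theorem mem_tau {p t : X} {w : V} :
    t ∈ tau act p w ↔ t ∈ T act ∧ ∀ v, act t v = kap act p (v w) := by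
  classical simp [tau]

theorem act_mem_T (p : X) (x : V → V) : act p x ∈ T act := (mem_T act).2 ⟨p, x, rfl⟩

variable (hact : ∀ p x y, act (act p x) y = act p (y ∘ bal ∘ x))
  (hf : ∀ x y, (∀ p, act p x = act p y) → x = y)

include hact in
theorem kap_act_kap (p : X) (x : V → V) (c : V) : kap act (act p x) c = kap act p c := by
  unfold kap
  rw [hact]
  rfl

include hact in
theorem act_kap (p : X) (c : V) (v : V → V) : act (kap act p c) v = kap act p (v (bal c)) := by
  unfold kap
  rw [hact]
  rfl

include hact hf in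
theorem count {Z : Type} [Fintype Z] (ez : Z → (V → V)) (hinj : Injective ez) (w1 w2 : V)
    (h1 : ∀ z, ez z 0 = w1) (h2 : ∀ z, ez z 512 = w2) (D : X → Finset X)
    (hD : ∀ p z, act p (ez z) ∈ D p) :
    Fintype.card Z ≤ ∏ p ∈ (T act)ᶜ, (D p).card := by
  classical
  have key : Injective (fun (z : Z) (p : ((T act)ᶜ : Finset X)) =>
      (⟨act p.1 (ez z), hD p.1 z⟩ : D p.1)) := by
    intro z z' hzz
    apply hinj
    apply hf
    intro p
    by_cases hp : p ∈ T act
    · obtain ⟨q, u, rfl⟩ := (mem_T act).1 hp
      rw [hact, hact]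
      congr 1
      funext s
      show ez z (bal (u s)) = ez z' (bal (u s))
      rcases bal_eq (u s) with h | h
      · rw [h, h1, h1]
      · rw [h, h2, h2]
    · have := congrFun hzz ⟨p, by simpa using hp⟩
      exact congrArg Subtype.val this
  have hle := Fintype.card_le_of_injective _ key
  rw [Fintype.card_pi] at hle
  simp only [Fintype.card_coe] at hle
  rw [Finset.prod_coe_sort ((T act)ᶜ) (fun p => (D p).card)] at hle
  exact hle

abbrev R := {s : V // s ≠ 0 ∧ s ≠ 512}

theorem card_R : Fintype.card R = 1022 := by decide +kernel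

/-- extension by a constant -/
def ext {A : Type} (g : A → V) (w : V) (z : R → A) : V → V :=
  fun s => if h : s ≠ 0 ∧ s ≠ 512 then g (z ⟨s, h⟩) else w

theorem ext_inj {A : Type} (g : A → V) (hg : Injective g) (w : V) : Injective (ext g w) := by
  intro z z' h
  funext s
  have := congrFun h s.1
  unfold ext at this
  rw [dif_pos s.2, dif_pos s.2] at this
  exact hg this

include hact hf in
theorem count_all : 2 ^ (10 * Fintype.card R) ≤ ∏ p ∈ (T act)ᶜ, (Tk act p).card := by
  classical
  have h := count act hact hf (Z := R → V) (ext (A := V) id 0) (ext_inj _ injective_id _) 0 0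
    (fun z => by simp [ext]) (fun z => by simp [ext]) (Tk act) (fun p z => by
      rw [mem_Tk]
      exact ⟨act_mem_T act _ _, fun c => kap_act_kap act hact _ _ _⟩)
  have hV : Fintype.card V = 1024 := Fintype.card_fin 1024
  have hc : Fintype.card (R → V) = 1024 ^ Fintype.card R := by rw [Fintype.card_fun, hV]
  rw [hc] at h
  rw [aux10]
  exact h

include hact hf in
theorem count_low : 2 ^ (9 * Fintype.card R) ≤ ∏ p ∈ (T act)ᶜ, (tau act p 0).card := by
  classical
  have := count act hact hf (ext (A := Fin 512) (fun i => ⟨i.val, by omega⟩) 0)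
    (ext_inj _ (fun i j h => by simpa [Fin.ext_iff] using h) _) 0 0
    (fun z => by simp [ext]) (fun z => by simp [ext]) (fun p => tau act p 0) (fun p z => by
      rw [mem_tau]
      refine ⟨act_mem_T act _ _, fun v => ?_⟩
      rw [hact]
      unfold kap
      congr 1
      funext s
      show v (bal _) = v 0
      congr 1
      unfold ext
      split_ifs with h
      · simp [bal]
      · simp [bal])
  rw [Fintype.card_fun, Fintype.card_fin] at this
  rw [aux9]
  exact this

include hact hf in
theorem count_high : 2 ^ (9 * Fintype.card R) ≤ ∏ p ∈ (T act)ᶜ, (tau act p 512).card := by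
  classical
  have := count act hact hf (ext (A := Fin 512) (fun i => ⟨i.val + 512, by omega⟩) 512)
    (ext_inj _ (fun i j h => by simpa [Fin.ext_iff] using h) _) 512 512
    (fun z => by simp [ext]) (fun z => by simp [ext]) (fun p => tau act p 512) (fun p z => by
      rw [mem_tau]
      refine ⟨act_mem_T act _ _, fun v => ?_⟩
      rw [hact]
      unfold kap
      congr 1
      funext s
      show v (bal _) = v 512
      congr 1
      unfold ext
      split_ifs with h
      · simp [bal]
      · simp [bal])
  rw [Fintype.card_fun, Fintype.card_fin] at this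
  rw [aux9]
  exact this

theorem tau_sub (p : X) (w : V) : tau act p w ⊆ Tk act p := by
  intro t ht
  rw [mem_tau] at ht
  rw [mem_Tk]
  exact ⟨ht.1, fun c => ht.2 (fun _ => c)⟩

/-- the constants act nontrivially on `p` -/
def NC (p : X) : Prop := ∃ c c', kap act p c ≠ kap act p c'

theorem NC_congr {p q : X} (h : ∀ c, kap act p c = kap act q c) (hp : NC act p) : NC act q := by
  obtain ⟨c, c', hc⟩ := hp
  exact ⟨c, c', by rw [← h, ← h]; exact hc⟩

theorem NC_of {p : X} (hp : NC act p) : ∃ v : V → V, kap act p (v 0) ≠ kap act p (v 512) := by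
  obtain ⟨c, c', hc⟩ := hp
  refine ⟨fun s => if s = 0 then c else c', ?_⟩
  simpa using hc

theorem tau_disj {p : X} (hp : NC act p) : Disjoint (tau act p 0) (tau act p 512) := by
  rw [Finset.disjoint_left]
  intro t h1 h2
  rw [mem_tau] at h1 h2
  obtain ⟨v, hv⟩ := NC_of act hp
  exact hv (by rw [← h1.2, ← h2.2])

theorem tau_mul_le_nc {p : X} (hp : NC act p) :
    4 * ((tau act p 0).card * (tau act p 512).card) ≤ (T act).card ^ 2 := by
  have h : (tau act p 0 ∪ tau act p 512).card ≤ (T act).card := by
    apply Finset.card_le_card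
    apply Finset.union_subset
    · intro t ht; exact ((mem_tau act).1 ht).1
    · intro t ht; exact ((mem_tau act).1 ht).1
  rw [Finset.card_union_of_disjoint (tau_disj act hp)] at h
  have h2 : ((tau act p 0).card + (tau act p 512).card) ^ 2 ≤ (T act).card ^ 2 :=
    Nat.pow_le_pow_left h 2
  have : 4 * ((tau act p 0).card * (tau act p 512).card) ≤
      ((tau act p 0).card + (tau act p 512).card) ^ 2 := by
    have := four_mul_le_sq_add (tau act p 0).card (tau act p 512).card
    nlinarith [this]
  omega

theorem Tk_disj {p q : X} (hp : ¬ NC act p) (hq : NC act q) :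
    Disjoint (Tk act p) (Tk act q) := by
  rw [Finset.disjoint_left]
  intro t h1 h2
  rw [mem_Tk] at h1 h2
  exact hp (NC_congr act (fun c => by rw [← h1.2, h2.2]) hq)

theorem caseA_bound {q : X} (hq : NC act q) (hq2 : (T act).card ≤ 2 * (Tk act q).card) (p : X) :
    4 * ((tau act p 0).card * (tau act p 512).card) ≤ (T act).card ^ 2 := by
  by_cases hp : NC act p
  · exact tau_mul_le_nc act hp
  · have h : (Tk act p ∪ Tk act q).card ≤ (T act).card := by
      apply Finset.card_le_card
      apply Finset.union_subset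
      · intro t ht; exact ((mem_Tk act).1 ht).1
      · intro t ht; exact ((mem_Tk act).1 ht).1
    rw [Finset.card_union_of_disjoint (Tk_disj act hp hq)] at h
    have h0 := Finset.card_le_card (tau_sub act p 0)
    have h1 := Finset.card_le_card (tau_sub act p 512)
    have h2 : 2 * (Tk act p).card ≤ (T act).card := by omega
    calc 4 * ((tau act p 0).card * (tau act p 512).card)
        ≤ 4 * ((Tk act p).card * (Tk act p).card) := by
          apply Nat.mul_le_mul_left
          exact Nat.mul_le_mul h0 h1
      _ = (2 * (Tk act p).card) ^ 2 := by ring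
      _ ≤ (T act).card ^ 2 := Nat.pow_le_pow_left h2 2

include hact hf in
theorem caseA {q : X} (hq : NC act q) (hq2 : (T act).card ≤ 2 * (Tk act q).card) :
    2 ^ ((T act)ᶜ).card * 2 ^ (9 * Fintype.card R) ≤ (T act).card ^ ((T act)ᶜ).card := by
  have h1 := count_low act hact hf
  have h2 := count_high act hact hf
  have h3 : ∏ p ∈ (T act)ᶜ, (4 * ((tau act p 0).card * (tau act p 512).card)) ≤
      ∏ _p ∈ (T act)ᶜ, (T act).card ^ 2 :=
    Finset.prod_le_prod' (fun p _ => caseA_bound act hq hq2 p)
  rw [Finset.prod_mul_distrib, Finset.prod_mul_distrib, Finset.prod_const,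
    Finset.prod_const] at h3
  have h4 : (2 ^ ((T act)ᶜ).card * 2 ^ (9 * Fintype.card R)) ^ 2 ≤
      ((T act).card ^ ((T act)ᶜ).card) ^ 2 := by
    calc (2 ^ ((T act)ᶜ).card * 2 ^ (9 * Fintype.card R)) ^ 2
        = 4 ^ ((T act)ᶜ).card * (2 ^ (9 * Fintype.card R) * 2 ^ (9 * Fintype.card R)) := by
          exact auxsq _ _
      _ ≤ 4 ^ ((T act)ᶜ).card * ((∏ p ∈ (T act)ᶜ, (tau act p 0).card) *
            ∏ p ∈ (T act)ᶜ, (tau act p 512).card) := by
          apply Nat.mul_le_mul_left
          exact Nat.mul_le_mul h1 h2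
      _ ≤ _ := h3
      _ = _ := by ring
  exact (Nat.pow_le_pow_iff_left (by norm_num)).1 h4

noncomputable def Tn : Finset X := by
  classical exact (T act).filter (fun t => NC act t)

theorem mem_Tn {t : X} : t ∈ Tn act ↔ t ∈ T act ∧ NC act t := by
  classical simp [Tn]

theorem pow_three_le (s : ℕ) : s ^ 3 ≤ 3 ^ s := by
  induction s with
  | zero => norm_num
  | succ n ih =>
    rcases Nat.lt_or_ge n 3 with h | h
    · interval_cases n <;> norm_num
    · rw [pow_succ 3]
      have : (n + 1) ^ 3 ≤ n ^ 3 * 3 := by nlinarith [h, mul_le_mul h h (by norm_num) (by omega)]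
      calc (n + 1) ^ 3 ≤ n ^ 3 * 3 := this
        _ ≤ 3 ^ n * 3 := Nat.mul_le_mul_right _ ih

include hact hf in
theorem sum_ge (K : Finset (V → X)) (hK : ∀ q, NC act q → kap act q ∈ K) (A : Finset V)
    (hA : A.card = 512) : 18 ≤ ∑ κ ∈ K, (A.image κ).card := by
  classical
  have key : Injective (fun (c : A) (κ : K) =>
      (⟨κ.1 c.1, Finset.mem_image_of_mem _ c.2⟩ : (A.image κ.1))) := by
    intro c c' h
    by_contra hne
    have hne' : (c.1 : V) ≠ c'.1 := fun h => hne (Subtype.ext h)
    have : ∃ p, act p (fun _ => c.1) ≠ act p (fun _ => c'.1) := by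
      by_contra hcon
      push Not at hcon
      have := hf _ _ hcon
      exact hne' (congrFun this 0)
    obtain ⟨p, hp⟩ := this
    have hNC : NC act p := ⟨c.1, c'.1, hp⟩
    have := congrFun h ⟨kap act p, hK p hNC⟩
    exact hp (congrArg Subtype.val this)
  have hle := Fintype.card_le_of_injective _ key
  rw [Fintype.card_pi] at hle
  simp only [Fintype.card_coe] at hle
  rw [Finset.prod_coe_sort K (fun κ => (A.image κ).card), hA] at hle
  have h3 : (512 : ℕ) ^ 3 ≤ 3 ^ (∑ κ ∈ K, (A.image κ).card) := by
    calc (512 : ℕ) ^ 3 ≤ (∏ κ ∈ K, (A.image κ).card) ^ 3 := Nat.pow_le_pow_left hle 3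
      _ = ∏ κ ∈ K, (A.image κ).card ^ 3 := by rw [Finset.prod_pow]
      _ ≤ ∏ κ ∈ K, 3 ^ (A.image κ).card := Finset.prod_le_prod' (fun κ _ => pow_three_le _)
      _ = 3 ^ (∑ κ ∈ K, (A.image κ).card) := by rw [Finset.prod_pow_eq_pow_sum]
  by_contra hlt
  have hlt' : ∑ κ ∈ K, (A.image κ).card ≤ 17 := by omega
  have := Nat.pow_le_pow_right (show 0 < 3 by norm_num) hlt'
  have h5 : (3 : ℕ) ^ 17 < 512 ^ 3 := by norm_num
  omega

include hact in
theorem Tn_ge (hf : ∀ x y, (∀ p, act p x = act p y) → x = y) : 36 ≤ (Tn act).card := by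
  classical
  set K : Finset (V → X) := (Tn act).image (fun t => kap act t) with hKdef
  have hK : ∀ q, NC act q → kap act q ∈ K := by
    intro q hq
    rw [hKdef, Finset.mem_image]
    refine ⟨kap act q 0, ?_, ?_⟩
    · rw [mem_Tn]
      refine ⟨act_mem_T act _ _, ?_⟩
      exact NC_congr act (fun c => (kap_act_kap act hact q _ c).symm) hq
    · funext c
      exact kap_act_kap act hact q _ c
  set A : Finset V := univ.filter (fun s : V => s.val < 512) with hA
  set B : Finset V := univ.filter (fun s : V => ¬ s.val < 512) with hB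
  have hAc : A.card = 512 := by rw [hA]; decide +kernel
  have hBc : B.card = 512 := by rw [hB]; decide +kernel
  have sA := sum_ge act hact hf K hK A hAc
  have sB := sum_ge act hact hf K hK B hBc
  have hfib : (Tn act).card = ∑ κ ∈ K, ((Tn act).filter (fun t => kap act t = κ)).card := by
    apply Finset.card_eq_sum_card_fiberwise
    intro t ht
    rw [hKdef]
    exact Finset.mem_coe.2 (Finset.mem_image_of_mem _ (Finset.mem_coe.1 ht))
  have hle : ∀ κ ∈ K, (A.image κ).card + (B.image κ).card ≤
      ((Tn act).filter (fun t => kap act t = κ)).card := by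
    intro κ hκ
    rw [hKdef, Finset.mem_image] at hκ
    obtain ⟨q, hq, rfl⟩ := hκ
    rw [mem_Tn] at hq
    have hdis : Disjoint (A.image (kap act q)) (B.image (kap act q)) := by
      rw [Finset.disjoint_left]
      intro t h1 h2
      rw [Finset.mem_image] at h1 h2
      obtain ⟨c, hc, rfl⟩ := h1
      obtain ⟨c', hc', heq⟩ := h2
      rw [hA, Finset.mem_filter] at hc
      rw [hB, Finset.mem_filter] at hc'
      obtain ⟨v, hv⟩ := NC_of act hq.2
      apply hv
      have e1 := act_kap act hact q c v
      have e2 := act_kap act hact q c' v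
      rw [heq] at e2
      have b1 : bal c = 0 := by unfold bal; rw [if_pos hc.2]
      have b2 : bal c' = 512 := by unfold bal; rw [if_neg hc'.2]
      rw [b1] at e1
      rw [b2] at e2
      rw [← e1, ← e2]
    rw [← Finset.card_union_of_disjoint hdis]
    apply Finset.card_le_card
    intro t ht
    rw [Finset.mem_union, Finset.mem_image, Finset.mem_image] at ht
    have : ∃ c, kap act q c = t := by
      rcases ht with ⟨c, _, h⟩ | ⟨c, _, h⟩ <;> exact ⟨c, h⟩
    obtain ⟨c, rfl⟩ := this
    rw [Finset.mem_filter, mem_Tn]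
    refine ⟨⟨act_mem_T act _ _, ?_⟩, ?_⟩
    · exact NC_congr act (fun d => (kap_act_kap act hact q _ d).symm) hq.2
    · funext d
      exact kap_act_kap act hact q _ d
  have := Finset.sum_le_sum hle
  rw [Finset.sum_add_distrib, ← hfib] at this
  omega

include hact hf in
theorem caseB (hB : ∀ q, NC act q → 2 * (Tk act q).card < (T act).card) :
    2 ^ (10 * Fintype.card R) ≤
      (max ((T act).card / 2) ((T act).card - 36)) ^ ((T act)ᶜ).card := by
  classical
  refine (count_all act hact hf).trans ?_
  rw [← Finset.prod_const]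
  apply Finset.prod_le_prod'
  intro p _
  by_cases hp : NC act p
  · have := hB p hp
    apply le_max_of_le_left
    omega
  · apply le_max_of_le_right
    have hdis : Disjoint (Tk act p) (Tn act) := by
      rw [Finset.disjoint_left]
      intro t h1 h2
      rw [mem_Tk] at h1
      rw [mem_Tn] at h2
      exact hp (NC_congr act h1.2 h2.2)
    have h : (Tk act p ∪ Tn act).card ≤ (T act).card := by
      apply Finset.card_le_card
      apply Finset.union_subset
      · intro t ht; exact ((mem_Tk act).1 ht).1
      · intro t ht; exact ((mem_Tn act).1 ht).1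
    rw [Finset.card_union_of_disjoint hdis] at h
    have := Tn_ge act hact hf
    omega

end Low

def numA (X M t : ℕ) : Bool := Nat.blt (t ^ (M - t)) (2 ^ (M - t) * 2 ^ X)
def numB (Y M t : ℕ) : Bool := Nat.blt ((max (t / 2) (t - 36)) ^ (M - t)) (2 ^ Y)

def allB (X Y M : ℕ) : ℕ → Bool
  | 0 => true
  | k + 1 => numA X M k && numB Y M k && allB X Y M k

theorem allB_true : allB 9198 10220 1568 1569 = true := by decide +kernel

theorem allB_imp (X Y M : ℕ) : ∀ N k, k < N → allB X Y M N = true →
    numA X M k = true ∧ numB Y M k = true := by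
  intro N
  induction N with
  | zero => intro k hk; omega
  | succ n ih =>
    intro k hk h
    rw [allB, Bool.and_eq_true, Bool.and_eq_true] at h
    by_cases hkn : k = n
    · rw [hkn]; exact h.1
    · exact ih k (by omega) h.2

theorem numA_spec {t P M M' X : ℕ} (hX : 1 ≤ X) (hcard : t + P = M') (hM : M' ≤ M)
    (h : numA X M t = true) (h1 : 2 ^ P * 2 ^ X ≤ t ^ P) : False := by
  unfold numA at h
  rw [Nat.blt_eq] at h
  generalize hN : M - t = N at h
  have hPN : P ≤ N := by omega
  have ht : 2 ≤ t := by
    by_contra hcon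
    have h3 : t ^ P ≤ 1 := by
      calc t ^ P ≤ 1 ^ P := Nat.pow_le_pow_left (by omega) P
        _ = 1 := one_pow P
    have h4 : 2 ≤ 2 ^ X := by
      calc 2 = 2 ^ 1 := (pow_one 2).symm
        _ ≤ 2 ^ X := Nat.pow_le_pow_right (by norm_num) hX
    have h5 : 1 ≤ 2 ^ P := Nat.one_le_two_pow
    nlinarith
  obtain ⟨c, rfl⟩ := Nat.exists_eq_add_of_le hPN
  have h3 : 2 ^ c ≤ t ^ c := Nat.pow_le_pow_left ht c
  have h4 : 2 ^ (P + c) * 2 ^ X ≤ t ^ (P + c) := by
    calc 2 ^ (P + c) * 2 ^ X = (2 ^ P * 2 ^ X) * 2 ^ c := by rw [pow_add]; ring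
      _ ≤ t ^ P * t ^ c := Nat.mul_le_mul h1 h3
      _ = t ^ (P + c) := by rw [pow_add]
  omega

theorem numB_spec {t P M M' Y : ℕ} (hY : 1 ≤ Y) (hcard : t + P = M') (hM : M' ≤ M)
    (h : numB Y M t = true) (h1 : 2 ^ Y ≤ (max (t / 2) (t - 36)) ^ P) : False := by
  unfold numB at h
  rw [Nat.blt_eq] at h
  generalize hN : M - t = N at h
  generalize max (t / 2) (t - 36) = w at h h1
  have hPN : P ≤ N := by omega
  have hw : 1 ≤ w := by
    by_contra hcon
    have hw0 : w = 0 := by omega
    rw [hw0] at h1
    have h4 : 2 ≤ 2 ^ Y := by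
      calc 2 = 2 ^ 1 := (pow_one 2).symm
        _ ≤ 2 ^ Y := Nat.pow_le_pow_right (by norm_num) hY
    have h3 : (0 : ℕ) ^ P ≤ 1 := by
      rcases Nat.eq_zero_or_pos P with h | h
      · rw [h]; norm_num
      · rw [Nat.zero_pow h]; norm_num
    omega
  have h3 : w ^ P ≤ w ^ N := Nat.pow_le_pow_right hw hPN
  omega

/-- rank two map with kernel classes of size 1023 and 1 -/
def unb : V → V := fun s => if s = 1023 then 1023 else 0

namespace Up

abbrev TT := Option (Fin 256) ⊕ (Option (Fin 4) ⊕ Fin 16)
abbrev PP := Fin 1023 ⊕ (Fin 257 ⊕ Unit)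

def bar (s : V) : Option (Fin 256) :=
  if h : s.val < 1023 then some ⟨s.val / 4, by omega⟩ else none

def til (s : V) : Option (Fin 4) :=
  if s.val < 1023 then some ⟨s.val % 4, by omega⟩ else none

theorem lt_iff (s : V) : s.val < 1023 ↔ s ≠ 1023 := by
  rw [Ne, Fin.ext_iff]
  show s.val < 1023 ↔ ¬ s.val = 1023
  omega

theorem bar_til_inj {s t : V} (h1 : bar s = bar t) (h2 : til s = til t) : s = t := by
  unfold bar at h1
  unfold til at h2
  apply Fin.ext
  by_cases hs : s.val < 1023 <;> by_cases ht : t.val < 1023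
  · rw [dif_pos hs, dif_pos ht] at h1
    rw [if_pos hs, if_pos ht] at h2
    simp only [Option.some.injEq, Fin.mk.injEq] at h1 h2
    omega
  · rw [dif_pos hs, dif_neg ht] at h1; simp at h1
  · rw [dif_neg hs, dif_pos ht] at h1; simp at h1
  · omega

theorem bar_e : bar 1023 = none := by
  unfold bar; rw [dif_neg]; decide

theorem til_e : til 1023 = none := by
  unfold til; rw [if_neg]; decide

theorem bar_ne {s : V} (h : s ≠ 1023) : ∃ i, bar s = some i := by
  unfold bar; rw [dif_pos ((lt_iff s).2 h)]; exact ⟨_, rfl⟩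

theorem til_ne {s : V} (h : s ≠ 1023) : ∃ i, til s = some i := by
  unfold til; rw [if_pos ((lt_iff s).2 h)]; exact ⟨_, rfl⟩

/-- an element of `Fin 256` different from both arguments -/
def third (x y : Option (Fin 256)) : Fin 256 :=
  if x ≠ some 0 ∧ y ≠ some 0 then 0 else if x ≠ some 1 ∧ y ≠ some 1 then 1 else 2

theorem third_symm (x y : Option (Fin 256)) : third x y = third y x := by
  unfold third
  simp only [and_comm]

theorem third_ne (x y : Option (Fin 256)) : some (third x y) ≠ x := by
  unfold third
  split_ifs with h1 h2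
  · exact Ne.symm h1.1
  · exact Ne.symm h2.1
  · intro h
    rw [← h] at h1 h2
    have a1 : y = some 0 := by
      by_contra hy
      exact h1 ⟨by decide, hy⟩
    have a2 : y = some 1 := by
      by_contra hy
      exact h2 ⟨by decide, hy⟩
    rw [a1] at a2
    exact absurd a2 (by decide)

def Psi (c d : V) : TT :=
  if c = d then Sum.inl (bar c)
  else if c = 1023 ∨ d = 1023 then Sum.inr (Sum.inr 0)
  else Sum.inl (some (third (bar c) (bar d)))

theorem Psi_symm (c d : V) : Psi c d = Psi d c := by
  unfold Psi
  by_cases h : c = d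
  · rw [h]
  · have h' : ¬ d = c := fun h' => h h'.symm
    rw [if_neg h, if_neg h', third_symm]
    simp only [or_comm]

theorem Psi_self (c : V) : Psi c c = Sum.inl (bar c) := by
  unfold Psi; rw [if_pos rfl]

theorem Psi_ne (c d : V) (h : c ≠ d) : Psi c d ≠ Sum.inl (bar c) := by
  unfold Psi
  rw [if_neg h]
  split_ifs with h2
  · simp
  · intro h3
    have := Sum.inl.inj h3
    exact third_ne _ _ this

def actT : TT → (V → V) → TT
  | Sum.inl (some _), v => Sum.inl (bar (v 0))
  | Sum.inl none, v => Sum.inl (bar (v 1023))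
  | Sum.inr (Sum.inl (some _)), v => Sum.inr (Sum.inl (til (v 0)))
  | Sum.inr (Sum.inl none), v => Sum.inr (Sum.inl (til (v 1023)))
  | Sum.inr (Sum.inr _), v => Psi (v 0) (v 1023)

theorem unb_e : unb 1023 = 1023 := by unfold unb; rw [if_pos rfl]
theorem unb_ne {s : V} (h : s ≠ 1023) : unb s = 0 := by unfold unb; rw [if_neg h]

theorem actT_bar (c : V) (y : V → V) : actT (Sum.inl (bar c)) y = Sum.inl (bar (y (unb c))) := by
  by_cases h : c = 1023
  · rw [h, bar_e, unb_e]; rfl
  · obtain ⟨i, hi⟩ := bar_ne h
    rw [hi, unb_ne h]; rfl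

theorem actT_til (c : V) (y : V → V) :
    actT (Sum.inr (Sum.inl (til c))) y = Sum.inr (Sum.inl (til (y (unb c)))) := by
  by_cases h : c = 1023
  · rw [h, til_e, unb_e]; rfl
  · obtain ⟨i, hi⟩ := til_ne h
    rw [hi, unb_ne h]; rfl

theorem actT_Psi (c d : V) (y : V → V) :
    actT (Psi c d) y = Psi (y (unb c)) (y (unb d)) := by
  by_cases h : c = d
  · rw [h, Psi_self, actT_bar, Psi_self]
  · by_cases hc : c = 1023
    · have hd : d ≠ 1023 := fun hd => h (hc.trans hd.symm)
      unfold Psi
      rw [if_neg h, if_pos (Or.inl hc), hc, unb_e, unb_ne hd]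
      show Psi (y 0) (y 1023) = _
      rw [Psi_symm]
      rfl
    · by_cases hd : d = 1023
      · rw [show Psi c d = Sum.inr (Sum.inr 0) by
          unfold Psi; rw [if_neg h, if_pos (Or.inr hd)], hd, unb_e, unb_ne hc]
        rfl
      · rw [show Psi c d = Sum.inl (some (third (bar c) (bar d))) by
          unfold Psi; rw [if_neg h, if_neg (by tauto)], unb_ne hc, unb_ne hd, Psi_self]
        rfl

theorem actT_act (t : TT) (x y : V → V) : actT (actT t x) y = actT t (y ∘ unb ∘ x) := by
  rcases t with (_ | i) | ((_ | i) | i)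
  · exact actT_bar _ _
  · exact actT_bar _ _
  · exact actT_til _ _
  · exact actT_til _ _
  · exact actT_Psi _ _ _

/-- embedding of the cycle -/
def cy (i : Fin 1023) : V := ⟨i.val, by omega⟩

theorem cy_zero : cy 0 = 0 := rfl

theorem cy_ne (i : Fin 1023) : cy i ≠ 1023 := by
  rw [← lt_iff]; exact i.2

theorem cy_surj {s : V} (h : s ≠ 1023) : ∃ i, cy i = s :=
  ⟨⟨s.val, (lt_iff s).2 h⟩, rfl⟩

section sel
variable {α β : Type} [DecidableEq α] [DecidableEq β]

/-- the value different from the value at `0` (if any) -/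
noncomputable def other (y : V → α) : α := by
  classical exact if h : ∃ s, y s ≠ y 0 then y h.choose else y 0

def k1 (y : V → α) : ℕ := (univ.filter (fun i : Fin 1023 => y (cy i) ≠ y 0)).card

noncomputable def sel (j : ℕ) (y : V → α) : α := if 4 * j < k1 y then other y else y 0

def TwoVal (y : V → α) : Prop := ∃ c d, ∀ s, y s = c ∨ y s = d

theorem other_eq {y : V → α} (h : TwoVal y) {s : V} (hs : y s ≠ y 0) : other y = y s := by
  classical
  unfold other
  have hex : ∃ s, y s ≠ y 0 := ⟨s, hs⟩
  rw [dif_pos hex]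
  have := hex.choose_spec
  obtain ⟨c, d, hcd⟩ := h
  rcases hcd 0 with h0 | h0 <;> rcases hcd s with h1 | h1 <;> rcases hcd hex.choose with h2 | h2 <;>
    first
      | exact h2.trans h1.symm
      | exact absurd (h1.trans h0.symm) hs
      | exact absurd (h2.trans h0.symm) this

theorem k1_pos {y : V → α} (h : 0 < k1 y) : ∃ i, y (cy i) ≠ y 0 := by
  unfold k1 at h
  obtain ⟨i, hi⟩ := Finset.card_pos.1 h
  exact ⟨i, (Finset.mem_filter.1 hi).2⟩

theorem k1_pos' {y : V → α} {i : Fin 1023} (h : y (cy i) ≠ y 0) : 0 < k1 y := by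
  unfold k1
  exact Finset.card_pos.2 ⟨i, Finset.mem_filter.2 ⟨Finset.mem_univ _, h⟩⟩

theorem sel_const {y : V → α} {c : α} (h : ∀ s, y s = c) (j : ℕ) : sel j y = c := by
  unfold sel
  have : k1 y = 0 := by
    by_contra hne
    obtain ⟨i, hi⟩ := k1_pos (Nat.pos_of_ne_zero hne)
    exact hi (by rw [h, h])
  rw [this, if_neg (by omega), h]

/-- naturality of the selected value -/
theorem sel_comp {y : V → α} (h : TwoVal y) (φ : α → β) (j : ℕ) :
    sel j (fun s => φ (y s)) = φ (sel j y) := by
  by_cases hc : ∀ s, y s = y 0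
  · rw [sel_const (c := y 0) hc, sel_const (c := φ (y 0))]
    intro s
    rw [hc s]
  · push Not at hc
    obtain ⟨s0, hs0⟩ := hc
    have ho : other y = y s0 := other_eq h hs0
    have hv : ∀ s, y s = y 0 ∨ y s = y s0 := by
      intro s
      by_cases hs : y s = y 0
      · exact Or.inl hs
      · right
        rw [← other_eq h hs, ho]
    by_cases hφ : φ (y s0) = φ (y 0)
    · have hcst : ∀ s, φ (y s) = φ (y 0) := by
        intro s
        rcases hv s with h1 | h1
        · rw [h1]
        · rw [h1, hφ]
      rw [sel_const (y := fun s => φ (y s)) hcst]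
      unfold sel
      split_ifs
      · rw [ho, hφ]
      · rfl
    · have hk : k1 (fun s => φ (y s)) = k1 y := by
        unfold k1
        refine congrArg Finset.card (Finset.filter_congr ?_)
        intro i _
        constructor
        · intro h1 h2
          exact h1 (congrArg φ h2)
        · intro h1 h2
          rcases hv (cy i) with h3 | h3
          · exact h1 h3
          · exact hφ ((congrArg φ h3).symm.trans h2)
      have h2 : TwoVal (fun s => φ (y s)) :=
        ⟨φ (y 0), φ (y s0), fun s => by
          rcases hv s with h1 | h1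
          · left; show φ (y s) = _; rw [h1]
          · right; show φ (y s) = _; rw [h1]⟩
      have h3 : other (fun s => φ (y s)) = φ (y s0) :=
        other_eq (y := fun s => φ (y s)) h2 (s := s0) hφ
      unfold sel
      rw [hk, h3, ho]
      split_ifs
      · rfl
      · rfl

end sel

noncomputable def forced (x : V → V) : PP → TT
  | Sum.inl i => Psi (x (cy i)) (x (cy (i + 1)))
  | Sum.inr (Sum.inl j) => Sum.inl (bar (sel j.val x))
  | Sum.inr (Sum.inr _) => Sum.inr (Sum.inl (til (sel 0 x)))

theorem forced_inl (x : V → V) (i : Fin 1023) :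
    forced x (Sum.inl i) = Psi (x (cy i)) (x (cy (i + 1))) := rfl
theorem forced_sel (x : V → V) (j : Fin 257) :
    forced x (Sum.inr (Sum.inl j)) = Sum.inl (bar (sel j.val x)) := rfl
theorem forced_last (x : V → V) (u : Unit) :
    forced x (Sum.inr (Sum.inr u)) = Sum.inr (Sum.inl (til (sel 0 x))) := rfl

def SB : Finset TT := univ.image (fun i : Fin 256 => Sum.inl (some i))
def SC : Finset TT := univ.image (fun i : Fin 4 => Sum.inr (Sum.inl (some i)))
def SG : Finset TT := univ.image (fun i : Fin 16 => Sum.inr (Sum.inr i))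

theorem mem_SB {t : TT} : t ∈ SB ↔ ∃ i, t = Sum.inl (some i) := by
  simp [SB, eq_comm]
theorem mem_SC {t : TT} : t ∈ SC ↔ ∃ i, t = Sum.inr (Sum.inl (some i)) := by
  simp [SC, eq_comm]
theorem mem_SG {t : TT} : t ∈ SG ↔ ∃ i, t = Sum.inr (Sum.inr i) := by
  simp [SG, eq_comm]

theorem card_SB : SB.card = 256 := by
  unfold SB
  rw [Finset.card_image_of_injective]
  · simp
  · intro i j h; simpa using h
theorem card_SC : SC.card = 4 := by
  unfold SC
  rw [Finset.card_image_of_injective]
  · simp
  · intro i j h; simpa using h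
theorem card_SG : SG.card = 16 := by
  unfold SG
  rw [Finset.card_image_of_injective]
  · simp
  · intro i j h; simpa using h

/-- the allowed sets -/
noncomputable def ty (F : V → Bool) : PP → Finset TT
  | Sum.inl i => if F (cy i) = F (cy (i + 1)) then
      (if F (cy i) then {Sum.inl none} else SB) else SG
  | Sum.inr (Sum.inl j) => if sel j.val F then {Sum.inl none} else SB
  | Sum.inr (Sum.inr _) => if sel 0 F then {Sum.inr (Sum.inl none)} else SC

theorem ty_inl (F : V → Bool) (i : Fin 1023) : ty F (Sum.inl i) =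
    if F (cy i) = F (cy (i + 1)) then (if F (cy i) then {Sum.inl none} else SB) else SG := rfl
theorem ty_sel (F : V → Bool) (j : Fin 257) : ty F (Sum.inr (Sum.inl j)) =
    if sel j.val F then {Sum.inl none} else SB := rfl
theorem ty_last (F : V → Bool) (u : Unit) : ty F (Sum.inr (Sum.inr u)) =
    if sel 0 F then {Sum.inr (Sum.inl none)} else SC := rfl

/-- indicator of the value `1023` -/
def ind (x : V → V) : V → Bool := fun s => decide (x s = 1023)

theorem twoVal_bool (F : V → Bool) : TwoVal F := ⟨true, false, fun s => by cases F s <;> simp⟩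

theorem forced_mem {x : V → V} (h : TwoVal x) (p : PP) : forced x p ∈ ty (ind x) p := by
  have hsel : ∀ j, sel j (ind x) = decide (sel j x = 1023) := fun j =>
    sel_comp h (fun c => decide (c = 1023)) j
  rcases p with i | j | u
  · rw [ty_inl, forced_inl]
    unfold ind
    by_cases h1 : x (cy i) = 1023 <;> by_cases h2 : x (cy (i + 1)) = 1023
    · simp [h1, h2, Psi_self, bar_e]
    · simp only [h1, h2, decide_true, decide_false, Bool.true_eq_false, if_false]
      rw [mem_SG]
      refine ⟨0, ?_⟩
      unfold Psi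
      rw [if_neg (fun h => h2 h.symm), if_pos (Or.inl rfl)]
    · simp only [h1, h2, decide_true, decide_false, Bool.false_eq_true, if_false]
      rw [mem_SG]
      refine ⟨0, ?_⟩
      unfold Psi
      rw [if_neg h1, if_pos (Or.inr rfl)]
    · simp only [h1, h2, decide_false, if_true, Bool.false_eq_true, if_false]
      rw [mem_SB]
      by_cases h3 : x (cy i) = x (cy (i + 1))
      · rw [h3, Psi_self]
        obtain ⟨j, hj⟩ := bar_ne h2
        exact ⟨j, by rw [hj]⟩
      · refine ⟨third (bar (x (cy i))) (bar (x (cy (i + 1)))), ?_⟩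
        unfold Psi
        rw [if_neg h3, if_neg (by tauto)]
  · rw [ty_sel, hsel, forced_sel]
    generalize sel j.val x = w
    by_cases h1 : w = 1023
    · rw [h1, bar_e, decide_eq_true rfl, if_pos rfl]
      exact Finset.mem_singleton_self _
    · rw [decide_eq_false h1, if_neg Bool.false_ne_true, mem_SB]
      obtain ⟨i, hi⟩ := bar_ne h1
      exact ⟨i, by rw [hi]⟩
  · rw [ty_last, hsel, forced_last]
    generalize sel 0 x = w
    by_cases h1 : w = 1023
    · rw [h1, til_e, decide_eq_true rfl, if_pos rfl]
      exact Finset.mem_singleton_self _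
    · rw [decide_eq_false h1, if_neg Bool.false_ne_true, mem_SC]
      obtain ⟨i, hi⟩ := til_ne h1
      exact ⟨i, by rw [hi]⟩

/-- action law on the allowed sets -/
theorem actT_ty {F : V → Bool} {p : PP} {t : TT} (ht : t ∈ ty F p) (v : V → V) :
    actT t v = forced (fun s => if F s then v 1023 else v 0) p := by
  have hsel : ∀ j, sel j (fun s => if F s then v 1023 else v 0) =
      if sel j F then v 1023 else v 0 := fun j =>
    sel_comp (twoVal_bool F) (fun b => if b then v 1023 else v 0) j
  rcases p with i | j | u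
  · rw [forced_inl]
    rw [ty_inl] at ht
    by_cases h : F (cy i) = F (cy (i + 1))
    · rw [if_pos h] at ht
      rw [← h, Psi_self]
      by_cases h1 : F (cy i)
      · rw [if_pos h1, Finset.mem_singleton] at ht
        rw [ht, if_pos h1]
        rfl
      · rw [if_neg h1, mem_SB] at ht
        obtain ⟨k, rfl⟩ := ht
        rw [if_neg h1]
        rfl
    · rw [if_neg h, mem_SG] at ht
      obtain ⟨k, rfl⟩ := ht
      show Psi (v 0) (v 1023) = _
      by_cases h1 : F (cy i) = true
      · have h2 : F (cy (i + 1)) = false := by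
          rw [h1] at h
          cases h3 : F (cy (i + 1))
          · rfl
          · rw [h3] at h; exact absurd rfl h
        rw [h1, h2, Psi_symm]
        rfl
      · have h1' : F (cy i) = false := by simpa using h1
        have h2 : F (cy (i + 1)) = true := by
          rw [h1'] at h
          cases h3 : F (cy (i + 1))
          · rw [h3] at h; exact absurd rfl h
          · rfl
        rw [h1', h2]
        rfl
  · rw [forced_sel, hsel]
    rw [ty_sel] at ht
    by_cases h1 : sel j.val F = true
    · simp only [h1, if_true] at ht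
      rw [Finset.mem_singleton] at ht
      rw [ht, if_pos h1]
      rfl
    · simp only [h1, Bool.false_eq_true, if_false] at ht
      rw [mem_SB] at ht
      obtain ⟨k, rfl⟩ := ht
      rw [if_neg h1]
      rfl
  · rw [forced_last, hsel]
    rw [ty_last] at ht
    by_cases h1 : sel 0 F = true
    · simp only [h1, if_true] at ht
      rw [Finset.mem_singleton] at ht
      rw [ht, if_pos h1]
      rfl
    · simp only [h1, Bool.false_eq_true, if_false] at ht
      rw [mem_SC] at ht
      obtain ⟨k, rfl⟩ := ht
      rw [if_neg h1]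
      rfl

/-- the forced values separate the maps with at most two values -/
theorem forced_inj {x y : V → V} (hx : TwoVal x) (hy : TwoVal y) (h0 : x 0 = y 0)
    (he : x 1023 = y 1023) (h : forced x = forced y) : x = y := by
  have hP : ∀ i : Fin 1023, Psi (x (cy i)) (x (cy (i + 1))) = Psi (y (cy i)) (y (cy (i + 1))) :=
    fun i => congrFun h (Sum.inl i)
  have hS : ∀ j : Fin 257, bar (sel j.val x) = bar (sel j.val y) :=
    fun j => Sum.inl.inj (congrFun h (Sum.inr (Sum.inl j)))
  have hS' : til (sel 0 x) = til (sel 0 y) :=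
    Sum.inl.inj (Sum.inr.inj (congrFun h (Sum.inr (Sum.inr ()))))
  have hsel0 : sel 0 x = sel 0 y := bar_til_inj (hS 0) hS'
  by_contra hne
  -- values
  have hstep : ∀ n : ℕ, ∀ hn : n + 1 < 1023,
      Psi (x (cy ⟨n, by omega⟩)) (x (cy ⟨n + 1, hn⟩)) =
        Psi (y (cy ⟨n, by omega⟩)) (y (cy ⟨n + 1, hn⟩)) := by
    intro n hn
    have := hP ⟨n, by omega⟩
    have e : (⟨n, by omega⟩ : Fin 1023) + 1 = ⟨n + 1, hn⟩ := by
      apply Fin.ext
      rw [Fin.val_add]
      show (n + 1 % 1023) % 1023 = n + 1
      omega
    rwa [e] at this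
  -- first difference
  have hdiff : ∃ n : ℕ, ∃ hn : n < 1023, x (cy ⟨n, hn⟩) ≠ y (cy ⟨n, hn⟩) := by
    by_contra hcon
    push Not at hcon
    apply hne
    funext s
    by_cases hs : s = 1023
    · rw [hs, he]
    · obtain ⟨i, rfl⟩ := cy_surj hs
      exact hcon i.val i.2
  classical
  obtain ⟨hn, hdn⟩ := Nat.find_spec hdiff
  set n := Nat.find hdiff with hndef
  have hmin : ∀ k < n, ∀ hk : k < 1023, x (cy ⟨k, hk⟩) = y (cy ⟨k, hk⟩) := by
    intro k hk hk'
    by_contra hcon
    exact Nat.find_min hdiff hk ⟨hk', hcon⟩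
  have hn0 : n ≠ 0 := by
    intro hn0
    apply hdn
    have : cy ⟨n, hn⟩ = 0 := by
      apply Fin.ext
      show n = 0
      exact hn0
    rw [this, h0]
  obtain ⟨k, hk⟩ := Nat.exists_eq_succ_of_ne_zero hn0
  have hk' : n = k + 1 := hk
  have hkn : k < 1023 := by omega
  have hw := hmin k (by omega) hkn
  have hPk := hstep k (by omega)
  have hdn' : x (cy ⟨k + 1, by omega⟩) ≠ y (cy ⟨k + 1, by omega⟩) := by
    have e : (⟨n, hn⟩ : Fin 1023) = ⟨k + 1, by omega⟩ := Fin.ext hk'
    rw [e] at hdn
    exact hdn
  set w := x (cy ⟨k, hkn⟩) with hwdef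
  rw [← hw] at hPk
  have hw1 : w ≠ x (cy ⟨k + 1, by omega⟩) := by
    intro h1
    rw [← h1, Psi_self] at hPk
    by_cases h2 : w = y (cy ⟨k + 1, by omega⟩)
    · exact hdn' (by rw [← h1, ← h2])
    · exact Psi_ne _ _ h2 hPk.symm
  have hw2 : w ≠ y (cy ⟨k + 1, by omega⟩) := by
    intro h1
    rw [← h1, Psi_self] at hPk
    exact Psi_ne _ _ hw1 hPk
  set d := x (cy ⟨k + 1, by omega⟩) with hddef
  set d' := y (cy ⟨k + 1, by omega⟩) with hd'def
  -- x has values w, d ; y has values w, d'
  have hxv : ∀ s, x s = w ∨ x s = d := by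
    intro s
    obtain ⟨c1, c2, hc⟩ := hx
    rcases hc (cy ⟨k, hkn⟩) with a | a <;> rcases hc (cy ⟨k + 1, by omega⟩) with b | b <;>
      rcases hc s with c | c <;> rw [← hwdef] at a <;> rw [← hddef] at b <;>
      first
        | (exact absurd (a.trans b.symm) hw1)
        | exact Or.inl (c.trans a.symm)
        | exact Or.inr (c.trans b.symm)
  have hyv : ∀ s, y s = w ∨ y s = d' := by
    intro s
    obtain ⟨c1, c2, hc⟩ := hy
    rcases hc (cy ⟨k, hkn⟩) with a | a <;> rcases hc (cy ⟨k + 1, by omega⟩) with b | b <;>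
      rcases hc s with c | c <;> rw [← hw] at a <;> rw [← hd'def] at b <;>
      first
        | (exact absurd (a.trans b.symm) hw2)
        | exact Or.inl (c.trans a.symm)
        | exact Or.inr (c.trans b.symm)
  have hx0 : x 0 = w := by
    rcases hxv 0 with a | a
    · exact a
    · rcases hyv 0 with b | b
      · rw [h0, b]
      · exact absurd (a.symm.trans (h0.trans b)) hdn'
  have hy0 : y 0 = w := by rw [← h0, hx0]
  have hxe : x 1023 = w := by
    rcases hxv 1023 with a | a
    · exact a
    · rcases hyv 1023 with b | b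
      · rw [he, b]
      · exact absurd (a.symm.trans (he.trans b)) hdn'
  have hye : y 1023 = w := by rw [← he, hxe]
  -- selected values
  have hkx : 0 < k1 x := k1_pos' (i := ⟨k + 1, by omega⟩) (by rw [← hddef, hx0]; exact hw1.symm)
  have hky : 0 < k1 y := k1_pos' (i := ⟨k + 1, by omega⟩) (by rw [← hd'def, hy0]; exact hw2.symm)
  unfold sel at hsel0
  rw [if_pos (by omega), if_pos (by omega),
    other_eq hx (s := cy ⟨k + 1, by omega⟩) (by rw [← hddef, hx0]; exact hw1.symm),
    other_eq hy (s := cy ⟨k + 1, by omega⟩) (by rw [← hd'def, hy0]; exact hw2.symm)] at hsel0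
  exact hdn' hsel0

/-- extension of an injection between finite sets -/
theorem exists_ext {α β : Type} [Finite α] (P : α → Prop) (f : α → β)
    (hf : ∀ x y, P x → P y → f x = f y → x = y) (D : Finset β) (hD : ∀ x, P x → f x ∈ D)
    (hcard : Nat.card α ≤ D.card) :
    ∃ g : α → β, Injective g ∧ (∀ x, g x ∈ D) ∧ ∀ x, P x → g x = f x := by
  classical
  have : Fintype α := Fintype.ofFinite α
  rw [Nat.card_eq_fintype_card] at hcard
  have h1 : (univ.filter P).image f ⊆ D := by
    intro t ht
    obtain ⟨x, hx, rfl⟩ := Finset.mem_image.1 ht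
    exact hD x (Finset.mem_filter.1 hx).2
  have h2 : ((univ.filter P).image f).card ≤ Fintype.card α :=
    Finset.card_image_le.trans (Finset.card_le_univ _)
  have h3 : Set.InjOn f (univ.filter P : Finset α) := by
    intro x hx y hy hxy
    exact hf x y (Finset.mem_filter.1 (Finset.mem_coe.1 hx)).2
      (Finset.mem_filter.1 (Finset.mem_coe.1 hy)).2 hxy
  obtain ⟨D', hD1, hD2, hD3⟩ := Finset.exists_subsuperset_card_eq h1 h2 hcard
  obtain ⟨g, hg⟩ := Finset.exists_equiv_extend_of_card_eq hD3.symm hD1 h3
  exact ⟨fun x => (g x : β), Subtype.val_injective.comp g.injective,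
    fun x => hD2 (g x).2, fun x hx => hg x (Finset.mem_filter.2 ⟨Finset.mem_univ _, hx⟩)⟩

/-- class invariants of a map -/
def cls (x : V → V) : (V → Bool) × V × V := (ind x, x 0, x 1023)

/-- number of free points of a class -/
def k0 (F : V → Bool) : ℕ := (univ.filter (fun i : Fin 1023 => i ≠ 0 ∧ F (cy i) = false)).card

theorem class_card (κ : (V → Bool) × V × V) :
    Nat.card {x : V → V // cls x = κ} ≤ 2 ^ (10 * k0 κ.1) := by
  classical
  have key : Injective (fun (x : {x : V → V // cls x = κ})
      (i : {i : Fin 1023 // i ≠ 0 ∧ κ.1 (cy i) = false}) => x.1 (cy i.1)) := by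
    rintro ⟨x, hx⟩ ⟨y, hy⟩ h
    apply Subtype.ext
    show x = y
    have hF : ind x = ind y := by
      have := hx.trans hy.symm
      exact congrArg Prod.fst this
    have h0 : x 0 = y 0 := by
      have := hx.trans hy.symm
      exact congrArg (fun z => z.2.1) this
    have he : x 1023 = y 1023 := by
      have := hx.trans hy.symm
      exact congrArg (fun z => z.2.2) this
    funext s
    by_cases hs : s = 1023
    · rw [hs, he]
    · obtain ⟨i, rfl⟩ := cy_surj hs
      by_cases hi : i = 0
      · rw [hi, cy_zero, h0]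
      · cases hFi : κ.1 (cy i)
        · exact congrFun h ⟨i, hi, hFi⟩
        · have hx' : ind x (cy i) = true := by
            rw [← hFi, ← hx]; rfl
          have hy' : ind y (cy i) = true := by
            rw [← hFi, ← hy]; rfl
          rw [of_decide_eq_true hx', of_decide_eq_true hy']
  have hle := Nat.card_le_card_of_injective _ key
  have hV : Nat.card V = 1024 := Nat.card_fin 1024
  have hsub : Nat.card {i : Fin 1023 // i ≠ 0 ∧ κ.1 (cy i) = false} = k0 κ.1 := by
    unfold k0
    rw [Nat.card_eq_fintype_card, Fintype.card_subtype]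
  rw [Nat.card_fun, hV, hsub] at hle
  have e : (2 : ℕ) ^ (10 * k0 κ.1) = 1024 ^ k0 κ.1 := by rw [pow_mul]; norm_num
  rw [e]
  exact hle

/-- exponent of the size of the allowed set -/
def u (F : V → Bool) (i : Fin 1023) : ℕ := if F (cy i) then 0 else 1

theorem card_ty_inl (F : V → Bool) (i : Fin 1023) :
    (ty F (Sum.inl i)).card = 2 ^ (4 * (u F i + u F (i + 1))) := by
  rw [ty_inl]
  unfold u
  generalize F (cy i) = a
  generalize F (cy (i + 1)) = b
  cases a <;> cases b
  · simp [card_SB]
  · simp [card_SG]
  · simp [card_SG]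
  · simp

theorem card_ty_sel (F : V → Bool) (j : Fin 257) :
    (ty F (Sum.inr (Sum.inl j))).card = 2 ^ (if sel j.val F then 0 else 8) := by
  rw [ty_sel]
  generalize sel j.val F = a
  cases a
  · simp [card_SB]
  · simp

theorem card_ty_last (F : V → Bool) (w : Unit) : 1 ≤ (ty F (Sum.inr (Sum.inr w))).card := by
  rw [ty_last]
  generalize sel 0 F = a
  cases a
  · simp [card_SC]
  · simp

theorem sum_u (F : V → Bool) : ∑ i : Fin 1023, (u F i + u F (i + 1)) = 2 * ∑ i, u F i := by
  rw [Finset.sum_add_distrib]
  have : ∑ i : Fin 1023, u F (i + 1) = ∑ i, u F i :=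
    Equiv.sum_comp (Equiv.addRight (1 : Fin 1023)) (fun i => u F i)
  rw [this]
  ring

theorem k0_le_sum (F : V → Bool) : k0 F ≤ ∑ i, u F i := by
  unfold k0 u
  rw [Finset.card_filter]
  apply Finset.sum_le_sum
  intro i _
  by_cases h : F (cy i) = true
  · simp [h]
  · rw [if_neg h]
    split_ifs <;> omega

theorem filter_lt (K : ℕ) (hK : K ≤ 1022) :
    K ≤ 4 * (univ.filter (fun j : Fin 257 => 4 * j.val < K)).card ∧
    1022 ≤ 4 * (univ.filter (fun j : Fin 257 => ¬ 4 * j.val < K)).card + K := by
  have h1 : (univ.filter (fun j : Fin 257 => 4 * j.val < K)).card = (K + 3) / 4 := by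
    have e : (univ.filter (fun j : Fin 257 => 4 * j.val < K)) =
        (univ.filter (fun j : Fin 257 => j.val < (K + 3) / 4)) := by
      apply Finset.filter_congr
      intro j _
      omega
    rw [e, Fin.card_filter_val_lt]
    omega
  have h2 := Finset.card_filter_add_card_filter_not (s := (univ : Finset (Fin 257)))
    (fun j : Fin 257 => 4 * j.val < K)
  rw [Finset.card_univ, Fintype.card_fin] at h2
  omega

theorem sel_count (F : V → Bool) :
    k0 F ≤ 4 * (univ.filter (fun j : Fin 257 => sel j.val F = false)).card := by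
  classical
  have hk0 : k0 F ≤ 1022 := by
    unfold k0
    have hsub : (univ.filter (fun i : Fin 1023 => i ≠ 0 ∧ F (cy i) = false)) ⊆
        univ.erase (0 : Fin 1023) := by
      intro i hi
      rw [Finset.mem_filter] at hi
      exact Finset.mem_erase.2 ⟨hi.2.1, Finset.mem_univ _⟩
    have := Finset.card_le_card hsub
    rw [Finset.card_erase_of_mem (Finset.mem_univ _), Finset.card_univ, Fintype.card_fin] at this
    omega
  by_cases hF : F 0 = true
  · have hk : k1 F = k0 F := by
      unfold k1 k0
      refine congrArg Finset.card (Finset.filter_congr ?_)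
      intro i _
      rw [hF]
      constructor
      · intro h
        refine ⟨?_, by simpa using h⟩
        rintro rfl
        exact h (by rw [cy_zero, hF])
      · intro h
        rw [h.2]
        decide
    have hsel : ∀ j : Fin 257, sel j.val F = false ↔ 4 * j.val < k0 F := by
      intro j
      unfold sel
      rw [hk, hF]
      constructor
      · intro h
        by_contra hcon
        rw [if_neg hcon] at h
        exact absurd h (by decide)
      · intro h
        rw [if_pos h]
        obtain ⟨i, hi⟩ := k1_pos (y := F) (by rw [hk]; omega)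
        rw [other_eq (twoVal_bool F) hi]
        rw [hF] at hi
        simpa using hi
    have e : (univ.filter (fun j : Fin 257 => sel j.val F = false)) =
        (univ.filter (fun j : Fin 257 => 4 * j.val < k0 F)) :=
      Finset.filter_congr (fun j _ => hsel j)
    rw [e]
    exact (filter_lt _ hk0).1
  · have hF' : F 0 = false := by simpa using hF
    have hk : k1 F + k0 F + 1 = 1023 := by
      have h1 := Finset.card_filter_add_card_filter_not (s := (univ : Finset (Fin 1023)))
        (fun i : Fin 1023 => F (cy i) = true)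
      rw [Finset.card_univ, Fintype.card_fin] at h1
      have h2 : k1 F = (univ.filter (fun i : Fin 1023 => F (cy i) = true)).card := by
        unfold k1
        refine congrArg Finset.card (Finset.filter_congr ?_)
        intro i _
        rw [hF']
        simp
      have h3 : (univ.filter (fun i : Fin 1023 => ¬ F (cy i) = true)).card = k0 F + 1 := by
        unfold k0
        have : (univ.filter (fun i : Fin 1023 => ¬ F (cy i) = true)) =
            insert 0 (univ.filter (fun i : Fin 1023 => i ≠ 0 ∧ F (cy i) = false)) := by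
          ext i
          rw [Finset.mem_filter, Finset.mem_insert, Finset.mem_filter]
          constructor
          · rintro ⟨_, h⟩
            by_cases hi : i = 0
            · exact Or.inl hi
            · exact Or.inr ⟨Finset.mem_univ _, hi, by simpa using h⟩
          · rintro (rfl | ⟨_, _, h⟩)
            · refine ⟨Finset.mem_univ _, ?_⟩
              rw [cy_zero, hF']
              decide
            · exact ⟨Finset.mem_univ _, by rw [h]; decide⟩
        rw [this, Finset.card_insert_of_notMem]
        rw [Finset.mem_filter]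
        rintro ⟨_, h, _⟩
        exact h rfl
      omega
    have hsel : ∀ j : Fin 257, sel j.val F = false ↔ ¬ 4 * j.val < k1 F := by
      intro j
      unfold sel
      constructor
      · intro h hcon
        rw [if_pos hcon] at h
        obtain ⟨i, hi⟩ := k1_pos (y := F) (by omega)
        rw [other_eq (twoVal_bool F) hi] at h
        exact hi (h.trans hF'.symm)
      · intro h
        rw [if_neg h, hF']
    have e : (univ.filter (fun j : Fin 257 => sel j.val F = false)) =
        (univ.filter (fun j : Fin 257 => ¬ 4 * j.val < k1 F)) :=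
      Finset.filter_congr (fun j _ => hsel j)
    rw [e]
    have := (filter_lt (k1 F) (by omega)).2
    omega

@[irreducible] noncomputable def DD (F : V → Bool) : Finset (PP → TT) :=
  Fintype.piFinset (fun p => ty F p)

theorem mem_DD {F : V → Bool} {g : PP → TT} : g ∈ DD F ↔ ∀ p, g p ∈ ty F p := by
  unfold DD
  exact Fintype.mem_piFinset

theorem card_D (F : V → Bool) : 2 ^ (10 * k0 F) ≤ (DD F).card := by
  classical
  unfold DD
  rw [Fintype.card_piFinset, Fintype.prod_sum_type, Fintype.prod_sum_type]
  have h1 : ∏ i : Fin 1023, (ty F (Sum.inl i)).card = 2 ^ (8 * ∑ i, u F i) := by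
    have e : 4 * (2 * ∑ i, u F i) = 8 * ∑ i, u F i := by ring
    rw [Finset.prod_congr rfl (fun i _ => card_ty_inl F i), Finset.prod_pow_eq_pow_sum,
      ← Finset.mul_sum, sum_u, e]
  have h2 : ∏ j : Fin 257, (ty F (Sum.inr (Sum.inl j))).card =
      2 ^ (8 * (univ.filter (fun j : Fin 257 => sel j.val F = false)).card) := by
    rw [Finset.prod_congr rfl (fun j _ => card_ty_sel F j), Finset.prod_pow_eq_pow_sum]
    refine congrArg (fun z => 2 ^ z) ?_
    rw [Finset.card_filter, Finset.mul_sum]
    apply Finset.sum_congr rfl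
    intro j _
    generalize sel j.val F = a
    cases a <;> simp
  have h3 : 1 ≤ ∏ w : Unit, (ty F (Sum.inr (Sum.inr w))).card :=
    Finset.one_le_prod' (fun w _ => card_ty_last F w)
  rw [h1, h2]
  calc 2 ^ (10 * k0 F)
      ≤ 2 ^ (8 * ∑ i, u F i) *
        (2 ^ (8 * (univ.filter (fun j : Fin 257 => sel j.val F = false)).card) * 1) := by
        rw [mul_one, ← pow_add]
        apply Nat.pow_le_pow_right (by norm_num)
        have a1 := k0_le_sum F
        have a2 := sel_count F
        omega
    _ ≤ _ := by
        apply Nat.mul_le_mul_left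
        apply Nat.mul_le_mul_left
        exact h3

/-- for each class an injective extension of the forced values -/
theorem exists_class (κ : (V → Bool) × V × V) :
    ∃ g : {x : V → V // cls x = κ} → (PP → TT), Injective g ∧
      (∀ x, g x ∈ DD κ.1) ∧
      ∀ x, TwoVal x.1 → g x = forced x.1 := by
  apply exists_ext (α := {x : V → V // cls x = κ}) (β := PP → TT)
    (fun x => TwoVal x.1) (fun x => forced x.1)
  · rintro ⟨x, hx⟩ ⟨y, hy⟩ hx1 hy1 hxy
    apply Subtype.ext
    have hc := hx.trans hy.symm
    exact forced_inj hx1 hy1 (congrArg (fun z => z.2.1) hc) (congrArg (fun z => z.2.2) hc) hxy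
  · rintro ⟨x, hx⟩ hx1
    rw [mem_DD]
    intro p
    have := forced_mem hx1 p
    have hx' : ind x = κ.1 := congrArg Prod.fst hx
    rw [← hx']
    exact this
  · exact (class_card κ).trans (card_D κ.1)

noncomputable def G (κ : (V → Bool) × V × V) : {x : V → V // cls x = κ} → (PP → TT) :=
  (exists_class κ).choose

theorem G_inj (κ : (V → Bool) × V × V) : Injective (G κ) := (exists_class κ).choose_spec.1

theorem G_mem (κ : (V → Bool) × V × V) (x : {x : V → V // cls x = κ}) (p : PP) :
    G κ x p ∈ ty κ.1 p := by
  have h := (exists_class κ).choose_spec.2.1 x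
  rw [mem_DD] at h
  exact h p

theorem G_forced (κ : (V → Bool) × V × V) (x : {x : V → V // cls x = κ}) (h : TwoVal x.1) :
    G κ x = forced x.1 := (exists_class κ).choose_spec.2.2 x h

def self (x : V → V) : {y : V → V // cls y = cls x} := ⟨x, rfl⟩

noncomputable def E (x : V → V) : PP → TT := G (cls x) (self x)

theorem E_mem (x : V → V) (p : PP) : E x p ∈ ty (ind x) p := G_mem (cls x) (self x) p

theorem E_forced {x : V → V} (h : TwoVal x) : E x = forced x := G_forced (cls x) (self x) h

theorem E_inj_cls {x y : V → V} (h : cls x = cls y) (hE : E x = E y) : x = y := by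
  have e2 : ∀ κ, ∀ (hy : cls y = κ), E y = G κ ⟨y, hy⟩ := by
    intro κ hy
    subst hy
    rfl
  have e3 : G (cls x) (self x) = G (cls x) ⟨y, h.symm⟩ := by
    rw [← e2]
    exact hE
  exact congrArg Subtype.val (G_inj (cls x) e3)

theorem ty_disj {F F' : V → Bool} {i : Fin 1023} {t : TT} (h : t ∈ ty F (Sum.inl i))
    (h' : t ∈ ty F' (Sum.inl i)) (h0 : F (cy i) = F' (cy i)) :
    F (cy (i + 1)) = F' (cy (i + 1)) := by
  rw [ty_inl] at h h'
  rw [← h0] at h'
  revert h h'
  generalize F (cy i) = a
  generalize F (cy (i + 1)) = b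
  generalize F' (cy (i + 1)) = c
  cases a <;> cases b <;> cases c <;> intro h h' <;> try rfl
  · rw [if_pos rfl, if_neg (by decide), mem_SB] at h
    rw [if_neg (by decide), mem_SG] at h'
    obtain ⟨k, hk⟩ := h
    obtain ⟨l, hl⟩ := h'
    rw [hk] at hl; exact absurd hl (by simp)
  · rw [if_pos rfl, if_neg (by decide), mem_SB] at h'
    rw [if_neg (by decide), mem_SG] at h
    obtain ⟨k, hk⟩ := h
    obtain ⟨l, hl⟩ := h'
    rw [hk] at hl; exact absurd hl (by simp)
  · rw [if_pos rfl, if_pos rfl, Finset.mem_singleton] at h'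
    rw [if_neg (by decide), mem_SG] at h
    obtain ⟨k, hk⟩ := h
    rw [hk] at h'; exact absurd h' (by simp)
  · rw [if_pos rfl, if_pos rfl, Finset.mem_singleton] at h
    rw [if_neg (by decide), mem_SG] at h'
    obtain ⟨k, hk⟩ := h'
    rw [hk] at h; exact absurd h (by simp)

theorem E_inj {x y : V → V} (h0 : x 0 = y 0) (he : x 1023 = y 1023) (hE : E x = E y) :
    x = y := by
  apply E_inj_cls _ hE
  have hcyc : ∀ n : ℕ, ∀ hn : n < 1023, ind x (cy ⟨n, hn⟩) = ind y (cy ⟨n, hn⟩) := by
    intro n
    induction n with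
    | zero =>
      intro hn
      show decide (x (cy 0) = 1023) = decide (y (cy 0) = 1023)
      rw [cy_zero, h0]
    | succ n ih =>
      intro hn
      have ih' := ih (by omega)
      have e : (⟨n, by omega⟩ : Fin 1023) + 1 = ⟨n + 1, hn⟩ := by
        apply Fin.ext
        rw [Fin.val_add]
        show (n + 1 % 1023) % 1023 = n + 1
        omega
      rw [← e]
      have h1 := E_mem x (Sum.inl ⟨n, by omega⟩)
      have h2 := E_mem y (Sum.inl ⟨n, by omega⟩)
      rw [hE] at h1
      exact ty_disj h1 h2 ih'
  have hind : ind x = ind y := by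
    funext s
    by_cases hs : s = 1023
    · rw [hs]
      show decide (x 1023 = 1023) = decide (y 1023 = 1023)
      rw [he]
    · obtain ⟨i, rfl⟩ := cy_surj hs
      exact hcyc i.val i.2
  unfold cls
  rw [hind, h0, he]

abbrev XX := TT ⊕ PP

noncomputable def actX : XX → (V → V) → XX
  | Sum.inl t, v => Sum.inl (actT t v)
  | Sum.inr p, v => Sum.inl (E v p)

theorem twoVal_comp (x y : V → V) : TwoVal (y ∘ unb ∘ x) := by
  refine ⟨y 1023, y 0, fun s => ?_⟩
  show y (unb (x s)) = _ ∨ y (unb (x s)) = _
  by_cases h : x s = 1023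
  · left; rw [h, unb_e]
  · right; rw [unb_ne h]

theorem comp_eq (x y : V → V) :
    (y ∘ unb ∘ x) = fun s => if ind x s then y 1023 else y 0 := by
  funext s
  show y (unb (x s)) = _
  unfold ind
  by_cases h : x s = 1023
  · rw [h, unb_e, decide_eq_true rfl, if_pos rfl]
  · rw [unb_ne h, decide_eq_false h, if_neg Bool.false_ne_true]

theorem actX_act (p : XX) (x y : V → V) : actX (actX p x) y = actX p (y ∘ unb ∘ x) := by
  rcases p with t | p
  · exact congrArg Sum.inl (actT_act t x y)
  · show Sum.inl (actT (E x p) y) = Sum.inl (E (y ∘ unb ∘ x) p)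
    rw [actT_ty (E_mem x p) y, E_forced (twoVal_comp x y), comp_eq]

theorem actX_inj (x y : V → V) (h : ∀ p, actX p x = actX p y) : x = y := by
  have hT : ∀ t : TT, actT t x = actT t y := fun t => Sum.inl.inj (h (Sum.inl t))
  have h0 : x 0 = y 0 := bar_til_inj (Sum.inl.inj (hT (Sum.inl (some 0))))
    (Sum.inl.inj (Sum.inr.inj (hT (Sum.inr (Sum.inl (some 0))))))
  have he : x 1023 = y 1023 := bar_til_inj (Sum.inl.inj (hT (Sum.inl none)))
    (Sum.inl.inj (Sum.inr.inj (hT (Sum.inr (Sum.inl none)))))
  apply E_inj h0 he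
  funext p
  exact Sum.inl.inj (h (Sum.inr p))

theorem card_XX : Fintype.card XX = 1559 := by
  simp [XX, TT, PP]

end Up


/-! ### From homomorphisms to actions and back -/

def balE : FullT 1024 := bal
def unbE : FullT 1024 := unb

theorem lower_bound {M : ℕ} (hM : M ≤ 1568) (f : Variant balE →ₙ* FullT M)
    (hfi : Injective f) : False := by
  classical
  set act : Fin M → (V → V) → Fin M := fun p x => (f x : FullT M) p with hactdef
  have hact : ∀ p x y, act (act p x) y = act p (y ∘ bal ∘ x) := by
    intro p x y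
    have := f.map_mul (show Variant balE from y) (show Variant balE from x)
    exact (congrFun this p).symm
  have hf : ∀ x y, (∀ p, act p x = act p y) → x = y := by
    intro x y h
    exact hfi (funext h)
  have hcard : (Low.T act).card + ((Low.T act)ᶜ).card = M := by
    rw [Finset.card_compl, Fintype.card_fin]
    have : (Low.T act).card ≤ M := by
      have := Finset.card_le_univ (Low.T act)
      rwa [Fintype.card_fin] at this
    omega
  have hnum := allB_imp 9198 10220 1568 1569 (Low.T act).card (by omega) allB_true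
  have e9 : 9 * Fintype.card Low.R = 9198 := by rw [Low.card_R]
  have e10 : 10 * Fintype.card Low.R = 10220 := by rw [Low.card_R]
  by_cases h : ∃ q, Low.NC act q ∧ (Low.T act).card ≤ 2 * (Low.Tk act q).card
  · obtain ⟨q, hq, hq2⟩ := h
    have h1 := Low.caseA act hact hf hq hq2
    rw [e9] at h1
    exact numA_spec (by norm_num) hcard hM hnum.1 h1
  · push Not at h
    have h1 := Low.caseB act hact hf h
    rw [e10] at h1
    exact numB_spec (by norm_num) hcard hM hnum.2 h1

theorem embed {X : Type} [Fintype X] [Nonempty X] {n : ℕ} (a : FullT n)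
    (act : X → (Fin n → Fin n) → X) (hact : ∀ p x y, act (act p x) y = act p (y ∘ a ∘ x))
    (hf : ∀ x y, (∀ p, act p x = act p y) → x = y) :
    Fintype.card X ∈ {m : ℕ | 1 ≤ m ∧ ∃ f : Variant a →ₙ* FullT m, Function.Injective f} := by
  classical
  refine ⟨Fintype.card_pos, ?_⟩
  let e := Fintype.equivFin X
  refine ⟨⟨fun x => (fun i => e (act (e.symm i) x) : FullT (Fintype.card X)), ?_⟩, ?_⟩
  · intro x y
    funext i
    show e (act (e.symm i) (x * y)) = e (act (e.symm (e (act (e.symm i) y))) x)
    rw [Equiv.symm_apply_apply]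
    exact (congrArg e (hact (e.symm i) y x)).symm
  · intro x y h
    apply hf
    intro p
    have := congrFun h (e p)
    have h2 : e (act (e.symm (e p)) x) = e (act (e.symm (e p)) y) := this
    rw [Equiv.symm_apply_apply] at h2
    exact e.injective h2

theorem rank_bal : rank balE = 2 := by
  have h : Set.range (fun i : Fin 1024 => balE i) = {0, 512} := by
    ext t
    constructor
    · rintro ⟨s, rfl⟩
      show bal s ∈ _
      rcases bal_eq s with h | h <;> rw [h] <;> simp
    · rintro (rfl | rfl)
      · exact ⟨0, show bal 0 = 0 by simp [bal]⟩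
      · exact ⟨512, show bal 512 = 512 by simp [bal]⟩
  unfold rank
  rw [h]
  rw [Nat.card_coe_set_eq, Set.ncard_pair (by decide)]

theorem rank_unb : rank unbE = 2 := by
  have h : Set.range (fun i : Fin 1024 => unbE i) = {0, 1023} := by
    ext t
    constructor
    · rintro ⟨s, rfl⟩
      show unb s ∈ _
      by_cases hs : s = 1023
      · rw [hs, Up.unb_e]; simp
      · rw [Up.unb_ne hs]; simp
    · rintro (rfl | rfl)
      · exact ⟨0, Up.unb_ne (by decide)⟩
      · exact ⟨1023, Up.unb_e⟩
  unfold rank
  rw [h]
  rw [Nat.card_coe_set_eq, Set.ncard_pair (by decide)]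

/-- the standard faithful action of a variant on two copies of the underlying set -/
def stdAct (p : V ⊕ V) (x : V → V) : V ⊕ V :=
  match p with
  | Sum.inl s => Sum.inr (x s)
  | Sum.inr s => Sum.inr (x (bal s))

theorem stdAct_act (p : V ⊕ V) (x y : V → V) :
    stdAct (stdAct p x) y = stdAct p (y ∘ bal ∘ x) := by
  cases p <;> rfl

/-- There are self-maps `a`, `b` of a set with 1024 elements, both of rank two, such that the
variant `T_1024^a` has minimum degree at most 1559, while `T_1024^b` has minimum degree at least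
1569. -/
theorem result : ∃ a b : FullT 1024, rank a = 2 ∧ rank b = 2 ∧
    minDegree (Variant a) ≤ 1559 ∧ 1569 ≤ minDegree (Variant b) := by
  refine ⟨unbE, balE, rank_unb, rank_bal, ?_, ?_⟩
  · apply Nat.sInf_le
    have h := embed (X := Up.XX) unbE Up.actX Up.actX_act Up.actX_inj
    rw [Up.card_XX] at h
    exact h
  · have hne : {m : ℕ | 1 ≤ m ∧ ∃ f : Variant balE →ₙ* FullT m,
        Function.Injective f}.Nonempty :=
      ⟨_, embed (X := V ⊕ V) balE stdAct stdAct_act (by
        intro x y h
        funext s
        exact Sum.inr.inj (h (Sum.inl s)))⟩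
    obtain ⟨_, f, hf⟩ := Nat.sInf_mem hne
    by_contra hcon
    exact lower_bound (by
      have : minDegree (Variant balE) ≤ 1568 := by omega
      exact this) f hf

end Pool.Agent.Results.MP_6b192e_al.RankTwo
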